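import Pool.Agent.TH117.GN.Main

/-!
# Cycle class maps for schemes over finite fields generated by abelian varieties, and for the
complements of arbitrary closed subschemes

Over an algebraic closure of the field with `p` elements each abelian variety is isogenous to the
reduction of an abelian variety of CM type (Honda, Tate). So an abelian variety over the field with
`p ^ a` elements is modelled by `RedAV`: a finite product of CM types `(E i, Φ i)` with Weil numbers
`π i ∈ E i` that satisfy the formula of Shimura and Taniyama; its cohomology of degree `n`, with
coefficients in an algebraically closed field `Ω`, consists of the alternating `n`-forms on
`Ω ⊗ H_1`, on which the Frobenius endomorphism acts by `π`.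

We consider (`IsGoodAV`) the abelian varieties `Y` that are, over an algebraic closure, isogenous to a
product of a supersingular abelian variety and of powers of the factors of an abelian variety `Z`
(any Newton polygons), where one of the following holds:

* the dimension of `Z` is at most five, and no two factors of `Z` form an exceptional pair: two
  non-Galois quartic CM fields with the same Galois closure, or CM fields of degrees 2 and 8, with a
  special relation between the Frobenius eigenvalues (`IsExceptionalPair`);
* the factors of `Z` (in any number) have dimension at most three, and two factors whose CM fields
  have the same Galois closure are isogenous, unless these fields are Galois over `ℚ` or one of the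
  two factors is supersingular.

`Homology Ω V` are data of motivic homology `M X i j = H_i^M(X, ℚ(j))` (with
`M X (2 i) i = CH_i(X)`) and of `ℓ`-adic homology `E X i j = H_i(X, ℚ_ℓ(j))` (coefficients extended to
`Ω`) of schemes `X` over a finite field. The class `Generated` contains the abelian varieties above,
it contains the schemes whose motives are direct summands of finite sums of twists of motives of
members, and it contains all of `Z`, `X`, `U = X ∖ Z` if it contains two of them.

The theorem, for all schemes `X` of this class - smooth or not, proper or not:

* the cycle class maps of `X` are bijective (onto the invariants of Frobenius, after extension of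
  scalars) for the cycles of all dimensions `i`, and the eigenvalue one of the Frobenius is
  semisimple;
* for an arbitrary closed subscheme `Z` of `X`, of dimension at most `d`, the same holds for the
  complement `U = X ∖ Z` and the cycles of dimension `i ≥ d`. Here `Z` has dimension at most `d` means
  that its homology vanishes in degrees above `2 d` and that the cycle class map is surjective in
  dimension `d`, with semisimple eigenvalue one (the homology of degree `2 d` is spanned by the
  classes of the irreducible components).
-/

namespace Pool.Agent.Results.MP_3af9db_ag.ComplementsOfClosedSets

open Pool.Agent.W495.TA Pool.Agent.W495.FM Pool.Agent.TH117.GN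

/-- Cycle class maps of the members of the class and of complements of closed subschemes. -/
theorem result (p : ℕ) [Fact p.Prime] (ν : PadicAlgCl p ≃+* ℂ) (Ω : Type) [Field Ω]
    [IsAlgClosed Ω] [CharZero Ω] (V : Type) (T : Homology Ω V) (hT : IsHomology T)
    (hW : HasWeights T) (X : V) (hX : Generated T (IsGoodAbelian p ν T) X) :
    (∀ i, IsIso T X i) ∧ ∀ Z U d, IsTriple T Z X U →
      ((∀ n j, 2 * d < n → ∀ e : T.E Z n j, e = 0) ∧ IsOnto T Z d) → ∀ i, d ≤ i → IsIso T U i :=
  ⟨fun i => (tb_good hT hX).iso hT i, fun Z U d h hZ i hi =>
    isoAbove_good hT hW Z X U d h hX hZ i hi⟩

end Pool.Agent.Results.MP_3af9db_ag.ComplementsOfClosedSets
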