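import Pool.Agent.TH862.SN.Tate

/-!
# Cycle classes over finite fields: cycles of dimension `p` on products

`k` is the algebraic closure of a finite field, `𝒱` a class of smooth projective irreducible
varieties over `k` closed under products (for the problem: all smooth projective varieties), `C` the
Chow groups with rational coefficients (in the form of their formal properties, `IsChowProj`), `H` a
Weil cohomology theory (`IsWeilProj`) and `T` the Tate classes (`IsTate`). The facts on cycles
and varieties which are used:
* `HasResolutions C p`: every cycle of dimension `p` is a linear combination of classes `f_* [W]`,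
  `f : W ⟶ X` a morphism from a variety of dimension `p` (de Jong's alterations);
* `HasKunneth H`: the Kunneth projectors are algebraic (Katz and Messing);
* `HasSection H p j Y`: `H_j(Y)` is a direct summand of `H_j(E)` for some variety `E` of dimension
  `p`, by means of correspondences; for `j ≤ 1` this is known, for `j ≤ p` it follows from the
  Lefschetz standard conjecture for `Y`.

Theorem. Let `X` satisfy `HasSection H p j X` for `j < p`, and let `Y` satisfy `HasSection H p j Y`
for `j ≤ p`.
* If for all varieties `W` of dimension `p` the numerically trivial cycles of dimension `p` on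
  `X × W` and on `Y × W` are torsion, then so are those on `X × Y`, and the cycle class map
  `CH_p(X × Y) ⊗ K → H^(2 dim - 2p)(X × Y)` is injective.
* If for all varieties `W` of dimension `p` the cycle class maps are onto the Tate classes for the
  cycles of dimension `p` on `X × W` and on `Y × W`, then so is the one of `X × Y`.

Proof of the first part. Write a numerically trivial cycle `z` of dimension `p` on `X × Y` as a
combination of `(a_i, b_i)_* [W_i]`, that is of the correspondences `Γ_{b_i} ∘ Γ_{a_i}^t`, and
decompose it with the Kunneth projectors `π_m(W_i)`: `z = ∑_m Z_m`. Up to homologically trivial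
cycles `Z_m` is `z ∘ π_m(X)`, so it is numerically trivial. Let `m ≥ p`, `j = 2p - m`, and let `E`,
`g`, `s` be as in `HasSection H p j Y`. The cycle `Γ_{b_i} ∘ π_m(W_i) - g ∘ s ∘ Γ_{b_i} ∘ π_m(W_i)`
of dimension `p` on `W_i × Y` is homologically trivial, because `Γ_{b_i} ∘ π_m(W_i)` has image in
`H_j(Y)`; so it is torsion. Hence `Z_m` is `g ∘ (s ∘ Z_m)` up to torsion, and `s ∘ Z_m` is a
numerically trivial cycle of dimension `p` on `X × E`; so it is torsion. If `m < p` one exchanges
the factors. The second part: `t = ∑_m t ∘ π_m(X)`, and `t ∘ π_m(X) = g ∘ (s ∘ t ∘ π_m(X))`, where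
`s ∘ t ∘ π_m(X)` is a Tate class on `X × E`; similarly for `m < p`.
-/

open CategoryTheory AlgebraicGeometry

set_option autoImplicit false

universe u v w

namespace Pool.Agent.Results.MP_3af9db_ag.CycleClassesOnProducts

open Pool.Agent.H914 Pool.Agent.W492.BB Pool.Agent.TH133 Pool.Agent.TH862.SN

/-- Injectivity and surjectivity (onto the Tate classes) of the cycle class map for the cycles of
dimension `p` on `X × Y`, from those on the products `X × W`, `Y × W` with varieties `W` of
dimension `p`; it is assumed that `H_j(X)`, `j < p`, and `H_j(Y)`, `j ≤ p`, are direct summands of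
the homology of varieties of dimension `p`. -/
theorem result {k : Type u} [Field k] {𝒱 : VarClass k} (C : TheoryData.{u, v, 0} 𝒱 ℚ)
    [IsChowProj C] {K : Type w} [Field K] [CharZero K] (H : WeilTheoryData.{u, v, w} C K)
    [IsWeilProj H] (T : SubFam H) (hT : IsTate T) (p : ℕ) (hC : HasResolutions C p) (hH : HasKunneth H)
    (X Y : 𝒱.Obj) (hX : HasSections H p p X) (hY : HasSections H p (p + 1) Y) :
    (NumZeroProd C p X → NumZeroProd C p Y →
      NumZero C p (X.prod Y) ∧ ClInjective H p (X.prod Y)) ∧
    (TateProd T p X → TateProd T p Y → TateAlg T p (X.prod Y)) := by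
  have hY' : ∀ j, j ≤ p → HasSection H p j Y := fun j hj => hY j (by omega)
  refine ⟨fun h h' => ?_, fun h h' => ?_⟩
  · have h1 := numZero_prod H hC hH hX hY' h h'
    exact ⟨h1, clInjective_of_numZero h1⟩
  · exact tate_prod hT hH hX hY' h (fun W hW => (h' W hW).swap hT)

end Pool.Agent.Results.MP_3af9db_ag.CycleClassesOnProducts
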