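import Pool.Agent.TH85.OV.Ladic

/-!
# Injectivity of cycle class maps of smooth varieties over finite fields

`𝒱` is a class of smooth projective geometrically irreducible varieties over the field `k` closed
under products (for the problem: all of them, over a finite field `k`), `C` the Chow groups with
rational coefficients and `H` a Weil cohomology theory with coefficients in the field `K` (for the
problem: `l`-adic cohomology, `K = ℚ_l`, Tate twists suppressed); they enter through their formal
properties (`IsChowProj`, `IsWeilProj`, finite dimension). `O` is the collection of the kernels of
`CH^i(X) → CH^i(V)` and `H^m(X) → H^m(V)` for the open subvarieties `V` of varieties `X` of the class,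
with their formal properties (`RestrData`, `RestrData.IsLocal`). `O.Injective V i` says that the cycle
class map `CH^i(V) ⊗ K → H^(2i)(V)` is injective, and `O.InjectiveOn S` that this holds for all `i` and
all open `V` in members `X` of `S` such that the complement of `V` is the union of the images of
finitely many smooth projective geometrically irreducible varieties.

`S` is the set of the products `P^N × P^M` of two projective spaces (`IsAmbient`), and `R` the set of
the rational varieties (`IsRich`).

Theorem. (1) The cycle class maps are injective for all open `V` in products `P^N × P^M` if and only if
the standard conjecture D holds for all smooth projective varieties: homological and numerical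
equivalence agree.

(2) The following are equivalent:
* the cycle class maps are injective for all open `V` in smooth projective varieties;
* rational equivalence (with rational coefficients) agrees with numerical equivalence on all smooth
  projective varieties;
* `ξ^n = 0` for each divisor class `ξ` on a rational variety of dimension `2 n` such that `ξ^n` is
  numerically trivial.

Proof. Suppose that `CH^i(X)` is finite-dimensional and that numerically trivial classes in it are
zero. Let `∑ c_j cl(x_j)` restrict to zero in `H^(2i)(V)`, so that it comes from the cohomology of the
varieties `Z_j` mapping onto the complement. A linear form `l` on `CH^i(X)` which vanishes on the cycles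
supported on the complement is the intersection with a class `β`, whose restrictions to the `Z_j` are
numerically trivial. If they are homologically trivial then `∑ c_j l(x_j) = 0`. Conversely let `Y` be a
closed subvariety of `X = P^N × P^M` and `β` a class on `X` whose restriction to `Y` is numerically
trivial. The push-forward of a cohomology class `η` of `Y` is a `K`-combination of cycle classes on `X`
which restricts to zero on `V = X - Y`, so it is orthogonal to `β`; hence the restriction of `β` to `Y`
is orthogonal to `η`. By `Pool.Agent.TH85.PD.num_hom_iff` the powers of divisor classes on rational
varieties suffice for the standard conjecture D, and these are restrictions from products `P^N × P^M`.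
-/

open CategoryTheory AlgebraicGeometry

set_option autoImplicit false

universe u v w

namespace Pool.Agent.Results.MP_3af9db_ag.OpenInProducts

open Pool.Agent.H914 Pool.Agent.W492.BB Pool.Agent.TH133 Pool.Agent.TH85.PD Pool.Agent.TH85.OV

/-- (1) The standard conjecture D is equivalent to the injectivity of the cycle class maps
`CH^i(V) ⊗ K → H^(2i)(V)` for all open `V` in products of two projective spaces (the members of `S`).
(2) The injectivity for all open `V` in all varieties of the class is equivalent to the equality of
rational and numerical equivalence, and to the vanishing of the numerically trivial `n`-th powers of
divisor classes on varieties of dimension `2 n` in the class `R` of rational varieties. -/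
theorem result {k : Type u} [Field k] {𝒱 : VarClass k} (C : TheoryData.{u, v, 0} 𝒱 ℚ)
    [IsChowProj C] {K : Type w} [Field K] [CharZero K] (H : WeilTheoryData.{u, v, w} C K)
    [IsWeilProj H] (hfin : ∀ X : 𝒱.Obj, Module.Finite K (H.A X)) (O : RestrData H)
    (hO : O.IsLocal) (R S : Set 𝒱.Obj) (hR : IsRich C R) (hS : IsAmbient H S) :
    (StandardD H ↔ O.InjectiveOn S) ∧
    List.TFAE [
      O.InjectiveOn Set.univ,
      ∀ (X : 𝒱.Obj) (i : ℕ) (z : C.A X), C.Deg i z → NumZero H i z → z = 0,
      ∀ X ∈ R, ∀ (n : ℕ) (ξ : C.A X), X.dim = 2 * n → C.Deg 1 ξ → NumZero H n (ξ ^ n) →
        ξ ^ n = 0] :=
  ⟨standardD_iff hO hfin hR hS, ratNum_tfae hO hfin hR hS⟩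

end Pool.Agent.Results.MP_3af9db_ag.OpenInProducts
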